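import Pool.Agent.H58.BL.Stm2

/-!
# Project BL (helper58), STR: elements which commute with the group on a minimal invariant subspace
-/

set_option autoImplicit false
set_option linter.unusedSectionVars false

open Finset Module

namespace Pool.Agent.H686.BL

open Pool.Agent.H58 Pool.Agent.H58.BL Pool.Agent.H58.AG

variable {E : Type*} [NormedAddCommGroup E] [InnerProductSpace ℝ E] [FiniteDimensional ℝ E]

/-- local form of `AG.scalar_of_symm` -/
lemma scalar_local {G : Subgroup (E ≃ₗᵢ[ℝ] E)} {W : Submodule ℝ E} (hW : IsMin G W)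
    {T : E →ₗ[ℝ] E} (hTW : ∀ x ∈ W, T x ∈ W)
    (hT : ∀ x ∈ W, ∀ y ∈ W, (inner ℝ (T x) y : ℝ) = inner ℝ x (T y))
    (hc : ∀ g ∈ G, ∀ x ∈ W, T (g x) = g (T x)) : ∃ c : ℝ, ∀ x ∈ W, T x = c • x := by
  have hr : (T.restrict hTW).IsSymmetric := fun x y => hT x x.2 y y.2
  have : Nontrivial W := Submodule.nontrivial_iff_ne_bot.2 hW.2.1
  have h1 := hr.hasEigenvalue_iSup_of_finiteDimensional
  obtain ⟨v, hv⟩ := h1.exists_hasEigenvector
  obtain ⟨c, hcd⟩ : ∃ c : ℝ, T.restrict hTW v = c • v := ⟨_, hv.apply_eq_smul⟩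
  refine ⟨c, ?_⟩
  have h2 : W ⊓ LinearMap.ker (T - c • LinearMap.id) = W := by
    apply hW.2.2 _ inf_le_left
    · intro g hg x hx
      refine ⟨hW.1 g hg x hx.1, ?_⟩
      have hx2 := hx.2
      rw [SetLike.mem_coe, LinearMap.mem_ker] at hx2 ⊢
      simp only [LinearMap.sub_apply, LinearMap.smul_apply, LinearMap.id_coe, id_eq] at hx2 ⊢
      rw [hc g hg x hx.1, ← map_smul, ← map_sub, hx2, map_zero]
    · intro h
      apply hv.2
      have hmem : (v : E) ∈ W ⊓ LinearMap.ker (T - c • LinearMap.id) := by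
        refine ⟨v.2, ?_⟩
        rw [SetLike.mem_coe, LinearMap.mem_ker]
        simp only [LinearMap.sub_apply, LinearMap.smul_apply, LinearMap.id_coe, id_eq]
        have := congrArg Subtype.val hcd
        rw [sub_eq_zero]
        simpa using this
      rw [h, Submodule.mem_bot] at hmem
      exact Subtype.ext hmem
  intro x hx
  rw [← h2] at hx
  have hx2 := hx.2
  rw [SetLike.mem_coe, LinearMap.mem_ker] at hx2
  simp only [LinearMap.sub_apply, LinearMap.smul_apply, LinearMap.id_coe, id_eq] at hx2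
  exact sub_eq_zero.1 hx2

/-- the elements of `G` which commute with `G` on `V` -/
def NV' (G : Subgroup (E ≃ₗᵢ[ℝ] E)) (V : Submodule ℝ E) : Set (E ≃ₗᵢ[ℝ] E) :=
  {g | g ∈ G ∧ ∀ h ∈ G, ∀ v ∈ V, g (h v) = h (g v)}

lemma inv_apply_self (g : E ≃ₗᵢ[ℝ] E) (x : E) : g⁻¹ (g x) = x := g.symm_apply_apply x

lemma apply_inv_self (g : E ≃ₗᵢ[ℝ] E) (x : E) : g (g⁻¹ x) = x := g.apply_symm_apply x

lemma inv_mem_NV {G : Subgroup (E ≃ₗᵢ[ℝ] E)} {V : Submodule ℝ E} (hV : IsMin G V)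
    {g : E ≃ₗᵢ[ℝ] E} (hg : g ∈ NV' G V) : g⁻¹ ∈ NV' G V := by
  refine ⟨G.inv_mem hg.1, fun h hh v hv => ?_⟩
  apply g.injective
  rw [apply_inv_self, hg.2 h hh _ (hV.1 _ (G.inv_mem hg.1) v hv), apply_inv_self]

lemma exists_a {G : Subgroup (E ≃ₗᵢ[ℝ] E)} {V : Submodule ℝ E} (hV : IsMin G V)
    {g : E ≃ₗᵢ[ℝ] E} (hg : g ∈ NV' G V) :
    ∃ a : ℝ, (∀ x ∈ V, g x + g⁻¹ x = (2 * a) • x) ∧ (∀ x ∈ V, g (g x) = (2 * a) • g x - x) ∧
      (∀ x ∈ V, ‖g x - a • x‖ ^ 2 = (1 - a ^ 2) * ‖x‖ ^ 2) ∧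
      (∀ x ∈ V, ∀ y ∈ V, (inner ℝ (g x - a • x) y : ℝ) = - inner ℝ x (g y - a • y)) ∧
      a ^ 2 ≤ 1 := by
  have hg' := inv_mem_NV hV hg
  obtain ⟨c, hc⟩ := scalar_local hV (T := lin g + lin g⁻¹) (by
      intro x hx
      exact V.add_mem (hV.1 g hg.1 x hx) (hV.1 _ hg'.1 x hx)) (by
      intro x _ y _
      simp only [LinearMap.add_apply, lin_apply, inner_add_left, inner_add_right]
      rw [inner_inv, inner_inv']
      ring) (by
      intro h hh x hx
      simp only [LinearMap.add_apply, lin_apply, map_add]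
      rw [hg.2 h hh x hx, hg'.2 h hh x hx])
  have h1 : ∀ x ∈ V, g x + g⁻¹ x = (2 * (c / 2)) • x := by
    intro x hx
    have := hc x hx
    simp only [LinearMap.add_apply, lin_apply] at this
    rw [this]
    congr 1
    ring
  have h2 : ∀ x ∈ V, g (g x) = (2 * (c / 2)) • g x - x := by
    intro x hx
    have := h1 (g x) (hV.1 g hg.1 x hx)
    rw [inv_apply_self] at this
    rw [← this]
    abel
  have h4 : ∀ x ∈ V, ∀ y ∈ V, (inner ℝ (g x - (c / 2) • x) y : ℝ) =
      - inner ℝ x (g y - (c / 2) • y) := by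
    intro x hx y _
    have e1 : (inner ℝ (g x) y : ℝ) + inner ℝ (g⁻¹ x) y = 2 * (c / 2) * inner ℝ x y := by
      rw [← inner_add_left, h1 x hx, real_inner_smul_left]
    rw [inner_inv'] at e1
    rw [inner_sub_left, inner_sub_right, real_inner_smul_left, real_inner_smul_right]
    linarith
  have h3 : ∀ x ∈ V, ‖g x - (c / 2) • x‖ ^ 2 = (1 - (c / 2) ^ 2) * ‖x‖ ^ 2 := by
    intro x hx
    have e1 : (inner ℝ (g x) x : ℝ) = (c / 2) * ‖x‖ ^ 2 := by
      have := h4 x hx x hx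
      rw [inner_sub_left, inner_sub_right, real_inner_smul_left, real_inner_smul_right,
        real_inner_comm x (g x), real_inner_self_eq_norm_sq] at this
      rw [real_inner_comm x (g x)]
      linarith
    rw [norm_sub_sq_real, real_inner_smul_right, e1, norm_smul, g.norm_map, mul_pow,
      Real.norm_eq_abs, sq_abs]
    ring
  refine ⟨c / 2, h1, h2, h3, h4, ?_⟩
  obtain ⟨w, hw, hw0⟩ := Submodule.exists_mem_ne_zero_of_ne_bot hV.2.1
  have e1 : 0 ≤ (1 - (c / 2) ^ 2) * ‖w‖ ^ 2 := by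
    rw [← h3 w hw]
    positivity
  have e2 : 0 < ‖w‖ ^ 2 := by
    have := norm_pos_iff.2 hw0
    positivity
  have := nonneg_of_mul_nonneg_left e1 e2
  linarith

/-- the structure of the commuting elements, general form -/
theorem str {G : Subgroup (E ≃ₗᵢ[ℝ] E)} {V : Submodule ℝ E} (hV : IsMin G V) :
    (∀ g ∈ NV' G V, (∀ v ∈ V, g v = v) ∨ ∀ v ∈ V, g v = -v) ∨
    ∃ J : E →ₗ[ℝ] E, (∀ v ∈ V, J v ∈ V) ∧ (∀ v ∈ V, J (J v) = -v) ∧
      (∀ v ∈ V, ∀ w ∈ V, (inner ℝ (J v) w : ℝ) = - inner ℝ v (J w)) ∧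
      (∀ h ∈ G, ∀ v ∈ V, J (h v) = h (J v)) ∧
      ∀ g ∈ NV' G V, ∃ a b : ℝ, a ^ 2 + b ^ 2 = 1 ∧ ∀ v ∈ V, g v = a • v + b • J v := by
  obtain ⟨w, hw, hw0⟩ := Submodule.exists_mem_ne_zero_of_ne_bot hV.2.1
  by_cases H : ∀ g ∈ NV' G V, ∃ a : ℝ, a ^ 2 = 1 ∧ ∀ v ∈ V, g v = a • v
  · left
    intro g hg
    obtain ⟨a, ha, h⟩ := H g hg
    have ha' : a = 1 ∨ a = -1 := by
      have : (a - 1) * (a + 1) = 0 := by linarith [show (a - 1) * (a + 1) = a ^ 2 - 1 by ring]
      rcases mul_eq_zero.1 this with h | h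
      · left; linarith
      · right; linarith
    rcases ha' with rfl | rfl
    · left
      intro v hv
      rw [h v hv, one_smul]
    · right
      intro v hv
      rw [h v hv, neg_one_smul]
  · right
    push Not at H
    obtain ⟨g0, hg0, hne⟩ := H
    obtain ⟨a, -, h2, h3, h4, h5⟩ := exists_a hV hg0
    have ha : a ^ 2 < 1 := by
      refine lt_of_le_of_ne h5 fun h => ?_
      obtain ⟨v, hv, hv2⟩ := hne a h
      apply hv2
      have e1 := h3 v hv
      rw [h, sub_self, zero_mul] at e1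
      have e2 : g0 v - a • v = 0 := by
        rw [← norm_eq_zero]
        exact pow_eq_zero_iff (two_ne_zero) |>.1 e1
      exact sub_eq_zero.1 e2
    obtain ⟨s, hs, hs2⟩ : ∃ s : ℝ, 0 < s ∧ s ^ 2 = 1 - a ^ 2 :=
      ⟨Real.sqrt (1 - a ^ 2), Real.sqrt_pos.2 (by linarith), Real.sq_sqrt (by linarith)⟩
    let J : E →ₗ[ℝ] E := (1 / s) • (lin g0 - a • LinearMap.id)
    have hJa : ∀ x, J x = (1 / s) • (g0 x - a • x) := fun x => rfl
    have hJV : ∀ v ∈ V, J v ∈ V := by
      intro v hv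
      rw [hJa]
      exact V.smul_mem _ (V.sub_mem (hV.1 g0 hg0.1 v hv) (V.smul_mem _ hv))
    have hJJ : ∀ v ∈ V, J (J v) = -v := by
      intro v hv
      rw [hJa, hJa, map_smul, map_sub, map_smul, h2 v hv]
      have e1 : (1 / s) • ((1 / s) • ((2 * a) • g0 v - v - a • g0 v) -
          a • (1 / s) • (g0 v - a • v)) = ((1 / s) * (1 / s) * (a ^ 2 - 1)) • v := by
        module
      rw [e1]
      have e2 : (1 / s) * (1 / s) * (a ^ 2 - 1) = -1 := by
        have : a ^ 2 - 1 = -s ^ 2 := by linarith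
        rw [this]
        field_simp
      rw [e2, neg_one_smul]
    have hJs : ∀ v ∈ V, ∀ w ∈ V, (inner ℝ (J v) w : ℝ) = - inner ℝ v (J w) := by
      intro v hv w hw
      rw [hJa, hJa, real_inner_smul_left, real_inner_smul_right, h4 v hv w hw]
      ring
    have hJc : ∀ h ∈ G, ∀ v ∈ V, J (h v) = h (J v) := by
      intro h hh v hv
      rw [hJa, hJa, hg0.2 h hh v hv, map_smul, map_sub, map_smul]
    refine ⟨J, hJV, hJJ, hJs, hJc, ?_⟩
    intro g hg
    obtain ⟨b, -, -, -, k4, -⟩ := exists_a hV hg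
    let K : E →ₗ[ℝ] E := lin g - b • LinearMap.id
    have hKa : ∀ x, K x = g x - b • x := fun x => rfl
    have hKV : ∀ v ∈ V, K v ∈ V := by
      intro v hv
      rw [hKa]
      exact V.sub_mem (hV.1 g hg.1 v hv) (V.smul_mem _ hv)
    have hKJ : ∀ v ∈ V, K (J v) = J (K v) := by
      intro v hv
      have e1 : g (g0 v) = g0 (g v) := hg.2 g0 hg0.1 v hv
      rw [hKa, hKa, hJa, hJa, map_smul, map_sub, map_smul, map_sub, map_smul, e1]
      module
    obtain ⟨c, hc⟩ := scalar_local hV (T := J ∘ₗ K) (fun x hx => hJV _ (hKV x hx)) (by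
      intro x hx y hy
      simp only [LinearMap.comp_apply]
      rw [hJs _ (hKV x hx) y hy, hKa x, k4 x hx _ (hJV y hy), neg_neg, ← hKa, hKJ y hy]) (by
      intro h hh x hx
      simp only [LinearMap.comp_apply]
      have e1 : K (h x) = h (K x) := by
        rw [hKa, hKa, hg.2 h hh x hx, map_sub, map_smul]
      rw [e1, hJc h hh _ (hKV x hx)])
    have hgv : ∀ v ∈ V, g v = b • v + (-c) • J v := by
      intro v hv
      have e1 := hJJ _ (hKV v hv)
      have e2 := hc v hv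
      simp only [LinearMap.comp_apply] at e2
      rw [e2, map_smul] at e1
      have e3 : g v = K v + b • v := by
        rw [hKa]
        abel
      have e4 : K v = -(c • J v) := by
        rw [e1, neg_neg]
      rw [e3, e4]
      module
    refine ⟨b, -c, ?_, hgv⟩
    have f1 : (inner ℝ w (J w) : ℝ) = 0 := by
      have := hJs w hw w hw
      rw [real_inner_comm] at this
      linarith
    have f2 : ‖J w‖ ^ 2 = ‖w‖ ^ 2 := by
      rw [← real_inner_self_eq_norm_sq, hJs w hw _ (hJV w hw), hJJ w hw, inner_neg_right, neg_neg,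
        real_inner_self_eq_norm_sq]
    have f3 : ‖w‖ ^ 2 = (b ^ 2 + (-c) ^ 2) * ‖w‖ ^ 2 := by
      have e1 : ‖g w‖ ^ 2 = ‖w‖ ^ 2 := by rw [g.norm_map]
      rw [hgv w hw, norm_add_sq_real, real_inner_smul_left, real_inner_smul_right, f1, norm_smul,
        norm_smul, mul_pow, mul_pow, Real.norm_eq_abs, Real.norm_eq_abs, sq_abs, sq_abs, f2] at e1
      linarith
    have f4 : 0 < ‖w‖ ^ 2 := by
      have := norm_pos_iff.2 hw0
      positivity
    have f5 : (b ^ 2 + (-c) ^ 2 - 1) * ‖w‖ ^ 2 = 0 := by linarith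
    rcases mul_eq_zero.1 f5 with h | h
    · linarith
    · exact absurd h f4.ne'

/-- STR -/
theorem t_str : S_STR := by
  intro n G V hV
  exact str hV

end Pool.Agent.H686.BL
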